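import Mathlib

set_option autoImplicit false

namespace Pool.Agent.Results.MP_6a2cdd_al.Neg

open PresentedGroup

def rels {V : Type} (Γ : SimpleGraph V) : Set (FreeGroup V) :=
  {w | (∃ u, w = .of u ^ 2) ∨ ∃ u v, Γ.Adj u v ∧ w = .of u * .of v * (.of u)⁻¹ * (.of v)⁻¹}

/-- The right-angled Coxeter group of a simplicial graph. -/
abbrev C {V : Type} (Γ : SimpleGraph V) := PresentedGroup (rels Γ)

def IsRefl {V : Type} {Γ : SimpleGraph V} (g : C Γ) : Prop := ∃ h u, g = h * of u * h⁻¹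

def IsGenRefl {V : Type} {Γ : SimpleGraph V} (g : C Γ) : Prop :=
  ∃ l : List (C Γ), l ≠ [] ∧ l.Nodup ∧ (∀ r ∈ l, IsRefl r) ∧ l.Pairwise Commute ∧ l.prod = g

variable {V : Type} {Γ : SimpleGraph V}

lemma sq (u : V) : (of u : C Γ) * of u = 1 := by
  simpa [of, pow_two] using one_of_mem (rels := rels Γ) (.inl ⟨u, rfl⟩)

lemma cm {u v : V} (h : Γ.Adj u v) : Commute (of u : C Γ) (of v) := by
  simpa [of, mul_inv_eq_iff_eq_mul, Commute, SemiconjBy] using
    one_of_mem (rels := rels Γ) (.inr ⟨u, v, h, rfl⟩)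

def lift {G : Type} [Group G] (f : V → G) (h1 : ∀ u, f u * f u = 1)
    (h2 : ∀ u v, Γ.Adj u v → f u * f v = f v * f u) : C Γ →* G :=
  toGroup (f := f) (by
    rintro _ (⟨u, rfl⟩ | ⟨u, v, h, rfl⟩)
    · simpa [pow_two] using h1 u
    · simp [h2 u v h])

lemma ne {u v : V} (h : u ≠ v) : (of u : C Γ) ≠ of v := fun e => by
  classical
  have := congrArg (lift (Γ := Γ) (fun x => if x = u then (-1 : ℤˣ) else 1)
    (fun x => by split_ifs <;> simp) fun _ _ _ => mul_comm ..) e
  simp [lift, h.symm] at this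

/-- The cone over the square `0 1 2 3` with apex `4`. -/
def Γ₀ : SimpleGraph (Fin 5) where
  Adj u v := u ≠ v ∧ (u = 4 ∨ v = 4 ∨ (u.1 + v.1) % 2 = 1)
  symm := ⟨by decide⟩
  loopless := ⟨by decide⟩

instance : DecidableRel Γ₀.Adj := fun u v => inferInstanceAs (Decidable (_ ∧ _))

abbrev a : C Γ₀ := of 0
abbrev b : C Γ₀ := of 1
abbrev c : C Γ₀ := of 2
abbrev d : C Γ₀ := of 3

def T : Subgroup (C Γ₀) := Subgroup.closure {a * c, b * d}

lemma cT {x y : C Γ₀} (hx : x ∈ T) (hy : y ∈ T) : Commute x y := by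
  have h : Commute (a * c) (b * d) :=
    ((cm (by decide)).mul_right (cm (by decide))).mul_left
      ((cm (by decide)).mul_right (cm (by decide)))
  have := Subgroup.isMulCommutative_closure (k := {a * c, b * d}) (by
    rintro _ (rfl | rfl) _ (rfl | rfl)
    exacts [rfl, h, h.symm, rfl])
  exact congrArg Subtype.val (this.is_comm.comm (⟨x, hx⟩ : T) ⟨y, hy⟩)

lemma ab : a * b * (a * b) = 1 := by
  rw [(cm (by decide) : Commute a b).symm.mul_mul_mul_comm, sq, sq, one_mul]

lemma iT {x : C Γ₀} (hx : x ∈ T) : a * b * x = x⁻¹ * (a * b) := by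
  induction hx using Subgroup.closure_induction with
  | mem x hx =>
    rcases hx with rfl | rfl
    · rw [eq_inv_mul_iff_mul_eq, (cm (by decide) : Commute a b).symm.mul_mul_mul_comm, sq, one_mul,
        (cm (by decide) : Commute b c).eq, mul_assoc a, ← mul_assoc c, sq, one_mul]
    · rw [eq_inv_mul_iff_mul_eq, mul_assoc a, ← mul_assoc b, sq, one_mul,
        (cm (by decide) : Commute a d).eq, mul_assoc b, ← mul_assoc d, sq, one_mul]
      exact (cm (by decide)).eq
  | one => simp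
  | mul x y h1 h2 hx hy =>
    rw [← mul_assoc, hx, mul_assoc, hy, (cT h1 h2).eq, mul_inv_rev, mul_assoc]
  | inv x _ hx => rw [inv_inv, mul_inv_eq_iff_eq_mul, mul_assoc, hx, mul_inv_cancel_left]

lemma fT {x : C Γ₀} (hx : x ∈ T) (h : x * x = 1) : x = 1 := by
  have m1 : a * c ∈ T := Subgroup.subset_closure (by simp)
  have m2 : b * d ∈ T := Subgroup.subset_closure (by simp)
  obtain ⟨m, n, rfl⟩ : ∃ m n : ℤ, x = (a * c) ^ m * (b * d) ^ n := by
    clear h
    induction hx using Subgroup.closure_induction with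
    | mem x hx =>
      rcases hx with rfl | rfl
      exacts [⟨1, 0, by simp⟩, ⟨0, 1, by simp⟩]
    | one => exact ⟨0, 0, by simp⟩
    | mul x y _ _ hx hy =>
      obtain ⟨m, n, rfl⟩ := hx
      obtain ⟨k, l, rfl⟩ := hy
      exact ⟨m + k, n + l, by
        rw [zpow_add, zpow_add, ((cT m2 m1).zpow_zpow n k).mul_mul_mul_comm]⟩
    | inv x _ hx =>
      obtain ⟨m, n, rfl⟩ := hx
      exact ⟨-m, -n, by rw [((cT m1 m2).zpow_zpow m n).eq, mul_inv_rev, zpow_neg, zpow_neg]⟩
  have h1 := congrArg (lift (Γ := Γ₀) (G := DihedralGroup 0) ![.sr 0, 1, .sr 1, 1, 1]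
    (by decide) (by decide)) h
  have h2 := congrArg (lift (Γ := Γ₀) (G := DihedralGroup 0) ![1, .sr 0, 1, .sr 1, 1]
    (by decide) (by decide)) h
  simp [lift] at h1 h2
  have h3 : m + m = 0 := DihedralGroup.r.inj (h1.trans DihedralGroup.one_def)
  have h4 : n + n = 0 := DihedralGroup.r.inj (h2.trans DihedralGroup.one_def)
  rw [show m = 0 by omega, show n = 0 by omega]
  simp

lemma i2 {y : C Γ₀} (h : y * (a * b) ∈ T) : y * y = 1 := by
  have := iT h
  rw [← mul_assoc, mul_left_inj, eq_inv_iff_mul_eq_one] at this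
  have h2 : a * b * (y * y) * (a * b) = a * b * 1 * (a * b) := by
    rw [mul_one, ab, ← this]
    simp only [mul_assoc]
  exact mul_left_cancel (mul_right_cancel h2)

lemma tt {x y : C Γ₀} (hx : x * (a * b) ∈ T) (hy : y * (a * b) ∈ T) : x * y ∈ T := by
  have := T.mul_mem hx (T.inv_mem hy)
  rwa [mul_inv_rev y, mul_assoc, mul_inv_cancel_left, inv_eq_of_mul_eq_one_left (i2 hy)] at this

def S : Set (C Γ₀) := {a * b, a * d, c * b, c * d}

lemma nf {x : C Γ₀} (hx : x ∈ Subgroup.closure S) : x ∈ T ∨ x * (a * b) ∈ T := by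
  have m1 : c * a ∈ T := by
    rw [← inv_mem_iff, mul_inv_rev, inv_eq_of_mul_eq_one_left (sq _),
      inv_eq_of_mul_eq_one_left (sq _)]
    exact Subgroup.subset_closure (by simp)
  have m2 : d * b ∈ T := by
    rw [← inv_mem_iff, mul_inv_rev, inv_eq_of_mul_eq_one_left (sq _),
      inv_eq_of_mul_eq_one_left (sq _)]
    exact Subgroup.subset_closure (by simp)
  induction hx using Subgroup.closure_induction with
  | mem x hx =>
    right
    rcases hx with rfl | rfl | rfl | rfl <;> rw [Commute.mul_mul_mul_comm (cm (by decide))]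
    · simp [sq]
    · simpa [sq]
    · simpa [sq]
    · exact T.mul_mem m1 m2
  | one => exact .inl T.one_mem
  | mul x y _ _ hx hy =>
    rcases hx with hx | hx <;> rcases hy with hy | hy
    · exact .inl (T.mul_mem hx hy)
    · exact .inr (mul_assoc x y _ ▸ T.mul_mem hx hy)
    · refine .inr ?_
      have := T.mul_mem hx (T.inv_mem hy)
      rwa [mul_assoc, iT (T.inv_mem hy), inv_inv, ← mul_assoc] at this
    · exact .inl (tt hx hy)
  | inv x _ hx =>
    exact hx.imp T.inv_mem fun h => by rwa [inv_eq_of_mul_eq_one_left (i2 h)]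

theorem result : ∃ (V : Type) (_ : Finite V) (Γ : SimpleGraph V) (S : Set (C Γ)),
    ¬ Γ.CliqueFree 3 ∧ (∀ g ∈ S, IsGenRefl g) ∧
    ∀ (W : Type) (Δ : SimpleGraph W), IsEmpty (Subgroup.closure S ≃* C Δ) := by
  classical
  have gr : ∀ u v, Γ₀.Adj u v → IsGenRefl (of u * of v : C Γ₀) := fun u v h =>
    ⟨[of u, of v], by simp, by simpa using ne h.ne, by
      simpa using ⟨⟨1, u, by simp⟩, 1, v, by simp⟩, by simpa using cm h, by simp⟩
  refine ⟨_, inferInstance, Γ₀, S, fun h => h {0, 1, 4} (by decide), ?_, fun W Δ => ⟨fun e => ?_⟩⟩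
  · rintro _ (rfl | rfl | rfl | rfl) <;> exact gr _ _ (by decide)
  let θ : C Δ →* C Γ₀ := (Subgroup.subtype _).comp e.symm.toMonoidHom
  have hθ : Function.Injective θ := Subtype.val_injective.comp e.symm.injective
  have hn : ∀ g, θ g ∈ T ∨ θ g * (a * b) ∈ T := fun g => nf (e.symm g).2
  have h1 : ∀ u, θ (of u) * (a * b) ∈ T := fun u => (hn _).resolve_left fun h => by
    have := congrArg (lift (Γ := Δ) (fun _ => (-1 : ℤˣ)) (by simp) (by simp))
      (hθ ((fT h (by rw [← map_mul, sq, map_one])).trans θ.map_one.symm))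
    simp [lift] at this
  have h2 : ∀ u v, ¬ Δ.Adj u v := fun u v h => by
    have := fT (tt (h1 u) (h1 v)) (by
      rw [← map_mul, ← map_mul, (cm h).symm.mul_mul_mul_comm, sq, sq, one_mul, map_one])
    rw [← map_mul, ← θ.map_one, ← sq u] at this
    exact ne h.ne (mul_left_cancel (hθ this)).symm
  have h3 : ∀ g, θ (g * g) ∈ T := fun g => by
    rw [map_mul]
    exact (hn g).elim (fun h => T.mul_mem h h) fun h => tt h h
  by_cases h4 : ∃ u v w : W, u ≠ v ∧ u ≠ w ∧ v ≠ w
  · obtain ⟨u, v, w, h5, h6, h7⟩ := h4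
    have := (cT (h3 (of u * of v)) (h3 (of v * of w))).eq
    rw [← map_mul, ← map_mul] at this
    have := congrArg (lift (Γ := Δ) (G := Equiv.Perm (Fin 4)) (fun x => if x = u then .swap 0 1
      else if x = v then .swap 1 2 else .swap 2 3) (fun x => by split_ifs <;> simp)
      fun u v h => (h2 u v h).elim) (hθ this)
    simp only [lift, map_mul, toGroup.of, h5.symm, h6.symm, h7.symm, if_true, if_false] at this
    exact absurd this (by decide)
  obtain ⟨g, k, h5⟩ : ∃ g k : C Δ, ∀ w, of w = g ∨ of w = k := by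
    by_contra! h
    obtain ⟨u, -⟩ := h 1 1
    obtain ⟨v, hv, -⟩ := h (of u) 1
    obtain ⟨w, h5, h6⟩ := h (of u) (of v)
    exact h4 ⟨u, v, w, fun e => hv (by rw [e]), fun e => h5 (by rw [e]), fun e => h6 (by rw [e])⟩
  let π : C Γ₀ →* (Fin 5 → ℤˣ) := lift (fun u => Pi.mulSingle u (-1)) (by decide)
    fun _ _ _ => mul_comm ..
  have h6 : ∀ (p : Fin 5 → ℤˣ) (m : ℤ), p ^ m = 1 ∨ p ^ m = p := fun p m => by
    rw [zpow_eq_zpow_emod m (n := 2) (funext fun i => by simp [zpow_two])]
    rcases Int.emod_two_eq_zero_or_one m with h | h <;> simp [h]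
  have h7 : ∀ x ∈ Subgroup.closure S, π x ∈ ({1, π (θ g), π (θ k), π (θ g) * π (θ k)} :
      Finset (Fin 5 → ℤˣ)) := fun x hx => by
    have := generated_by _ ((Subgroup.closure {π (θ g), π (θ k)}).comap (π.comp θ)) (fun w =>
      Subgroup.subset_closure (by rcases h5 w with h | h <;> simp [h])) (e ⟨x, hx⟩)
    obtain ⟨m, n, h⟩ := Subgroup.mem_closure_pair.1 this
    rw [show (π.comp θ) (e ⟨x, hx⟩) = π x by simp [θ]] at h
    rcases h6 (π (θ g)) m with h8 | h8 <;> rcases h6 (π (θ k)) n with h9 | h9 <;>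
      simp [← h, h8, h9]
  have h8 : ({π 1, π (a * b), π (a * d), π (c * b), π (c * d)} : Finset _) ⊆
      {1, π (θ g), π (θ k), π (θ g) * π (θ k)} := by
    intro z hz
    simp only [Finset.mem_insert, Finset.mem_singleton] at hz
    rcases hz with rfl | rfl | rfl | rfl | rfl
    exacts [h7 _ (one_mem _), h7 _ (Subgroup.subset_closure (by simp [S])),
      h7 _ (Subgroup.subset_closure (by simp [S])), h7 _ (Subgroup.subset_closure (by simp [S])),
      h7 _ (Subgroup.subset_closure (by simp [S]))]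
  have h9 := (Finset.card_le_card h8).trans Finset.card_le_four
  simp only [π, lift, map_mul, map_one, toGroup.of] at h9
  exact absurd h9 (by decide)

end Pool.Agent.Results.MP_6a2cdd_al.Neg
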